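import Pool.Agent.Y386.IR.Stm3

/-! # IR-TRI: the product is triangle-free -/

set_option autoImplicit false

namespace Pool.Agent.Y675.IR

open Pool.Agent.NPC Pool.Agent.H692R2 Pool.Agent.Y386.IR

theorem CA_triangle {p q a b c : ℕ} (hp : p < 3 * q) (h1 : CA p q a b)
    (h2 : CA p q a c) (h3 : CA p q b c) : False := by
  unfold CA at h1 h2 h3
  omega

theorem sA_ne {L : ℕ} (hL : 3 ≤ L) {E : List (ℕ × ℕ)} {a b : Lab} (h : sA L E a b) : a ≠ b := by
  rintro rfl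
  have := tag_sA hL h
  omega

theorem t_TRI : S_TRI := by
  intro p q L hq hL E hodd hp hE
  classical
  intro s hs
  rw [SimpleGraph.is3Clique_iff] at hs
  obtain ⟨a, b, c, hab, hac, hbc, rfl⟩ := hs
  rcases hab with ⟨h1, h1'⟩ | ⟨h1, h1'⟩
  · rcases hac with ⟨h2, h2'⟩ | ⟨h2, h2'⟩
    · rcases hbc with ⟨h3, h3'⟩ | ⟨h3, h3'⟩
      · exact CA_triangle hp h1' h2' h3'
      · exact sA_ne hL h3' (h1.symm.trans h2)
    · rcases hbc with ⟨h3, h3'⟩ | ⟨h3, h3'⟩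
      · exact sA_ne hL h2' (h1.trans h3)
      · rw [h2, ← h3] at h1'
        exact CA_irrefl hq h1'
  · rcases hac with ⟨h2, h2'⟩ | ⟨h2, h2'⟩
    · rcases hbc with ⟨h3, h3'⟩ | ⟨h3, h3'⟩
      · exact sA_ne hL h1' (h2.trans h3.symm)
      · rw [h1, h3] at h2'
        exact CA_irrefl hq h2'
    · rcases hbc with ⟨h3, h3'⟩ | ⟨h3, h3'⟩
      · rw [← h1, h2] at h3'
        exact CA_irrefl hq h3'
      · exact sA_triangle hL hodd hE h1' h3' h2'

end Pool.Agent.Y675.IR
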